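import Pool.Agent.TH117.GN.Main2

/-!
# Semisimplicity of the eigenvalue one for open subvarieties and images of varieties generated by
abelian varieties

Over an algebraic closure of the field with `p` elements each abelian variety is isogenous to the
reduction of an abelian variety of CM type (Honda, Tate). So an abelian variety over the field with
`p ^ a` elements is modelled by `RedAV`: a finite product of CM types `(E i, Φ i)` with Weil numbers
`π i ∈ E i` that satisfy the formula of Shimura and Taniyama; its cohomology of degree `n`, with
coefficients in an algebraically closed field `Ω`, consists of the alternating `n`-forms on
`Ω ⊗ H_1`, on which the Frobenius endomorphism acts by `π`.

We consider (`IsGood`) the abelian varieties `Y` that are, over an algebraic closure, isogenous to a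
product of a supersingular abelian variety and of powers of the factors of an abelian variety `Z`
(any Newton polygons), where one of the following holds:

* the dimension of `Z` is at most five, and no two factors of `Z` form an exceptional pair: two
  non-Galois quartic CM fields with the same Galois closure, or CM fields of degrees 2 and 8, with a
  special relation between the Frobenius eigenvalues (`IsExceptionalPair`);
* the factors of `Z` (in any number) have dimension at most three, and two factors whose CM fields
  have the same Galois closure are isogenous, unless these fields are Galois over `ℚ` or one of the
  two factors is supersingular.

The class `Generated` contains the abelian varieties above, it contains the schemes whose motives are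
direct summands of finite sums of twists of motives of members, and it contains all of `Z`, `X`,
`U = X ∖ Z` if it contains two of them. The class `Spread` contains in addition all open subvarieties
of members (with arbitrary closed complements), all images of members under proper morphisms, the
varieties that are unions of a closed and an open member, and motivic direct summands.

The theorem: for all varieties `X` of the class `Spread` and all `i` the eigenvalue one of the
Frobenius on `H_(2 i)(X, ℚ_ℓ(i))` is semisimple, and the invariants are spanned by the classes of
algebraic cycles of dimension `i`.
-/

namespace Pool.Agent.Results.MP_16ef92_ag.Images

open Pool.Agent.W495.TA Pool.Agent.W495.FM Pool.Agent.TH117.GN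

/-- The eigenvalue one is semisimple, and the invariants are spanned by cycle classes. -/
theorem result (p : ℕ) [Fact p.Prime] (ν : PadicAlgCl p ≃+* ℂ) (Ω : Type) [Field Ω]
    [IsAlgClosed Ω] [CharZero Ω] (V : Type) (T : Homology Ω V) (hT : IsHomology T)
    (hW : HasWeights T) (X : V) (hX : Spread T (Generated T (IsGood p ν T)) X) (i : ℤ) :
    IsOnto T X i :=
  onto_good2 hT hW hX i

end Pool.Agent.Results.MP_16ef92_ag.Images
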