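import Pool.Agent.TH943.TP.Tm

/-!
Semisimplicity of the eigenvalue one of Frobenius for the products of an arbitrary variety with explicit
complete coverings of projective spaces: it holds for the product, in all degrees, if and only if it
holds for the given variety.
-/

set_option autoImplicit false
set_option maxHeartbeats 1000000

open Polynomial TensorProduct

namespace Pool.Agent.Results.MP_16ef92_ag.TimesCoverings

section defs

variable {κ : Type} [Field κ]

/-- The composition `f(h_n(... h_1(x)))`; here `h_1` is `h 0`. -/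
noncomputable def composite : (n : ℕ) → (Fin n → κ[X]) → κ[X] → κ[X]
  | 0, _, f => f
  | n + 1, h, f => (composite n (fun i => h i.succ) f).comp (h 0)

/-- The value of the function `f(x_n) ^ c ∏ (x_i - h_i(x_(i-1))) ^ b_i`, product over `i = 1, ..., n`,
at the point `x = (x_0, ..., x_n)` of the affine space of dimension `n + 1` over `L`. -/
noncomputable def value {n : ℕ} (L : Type) [Field L] [Algebra κ L] (h : Fin n → κ[X]) (f : κ[X])
    (b : Fin n → ℕ) (c : ℕ) (x : Fin (n + 1) → L) : L :=
  (aeval (x (Fin.last n)) f) ^ c * ∏ i : Fin n, (x i.succ - aeval (x i.castSucc) (h i)) ^ b i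

/-- The number of points over `L` of the open set `U` of affine space where the function is not
zero. -/
noncomputable def openCount {n : ℕ} (L : Type) [Field L] [Algebra κ L] (h : Fin n → κ[X])
    (f : κ[X]) (b : Fin n → ℕ) (c : ℕ) : ℕ :=
  Set.ncard {x : Fin (n + 1) → L | value L h f b c x ≠ 0}

/-- The number of points over `L` of `U` where the power of the function with exponent
`(|L| - 1) / N` is `z ^ i`. -/
noncomputable def fixCount {n : ℕ} (L : Type) [Field L] [Fintype L] [Algebra κ L]
    (h : Fin n → κ[X]) (f : κ[X]) (b : Fin n → ℕ) (c N : ℕ) (z : κ) (i : ℕ) : ℕ :=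
  Set.ncard {x : Fin (n + 1) → L | value L h f b c x ≠ 0 ∧
    (value L h f b c x) ^ ((Fintype.card L - 1) / N) = algebraMap κ L z ^ i}

/-- The data of a covering: a number `n`, polynomials `h_1, ..., h_(n+1)` (`h_1` is `h 0`) and `f`, and
exponents. -/
structure Datum (κ : Type) [Field κ] : Type where
  n : ℕ
  h : Fin (n + 1) → κ[X]
  f : κ[X]
  b : Fin (n + 1) → ℕ
  c : ℕ

/-- The degree of the whole composition. -/
noncomputable def Datum.M (D : Datum κ) : ℕ := (composite (D.n + 1) D.h D.f).natDegree

/-- The degree of the composition without `h_1`. -/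
noncomputable def Datum.K (D : Datum κ) : ℕ := (composite D.n (fun i => D.h i.succ) D.f).natDegree

/-- The degree of `h_1`. -/
noncomputable def Datum.m (D : Datum κ) : ℕ := (D.h 0).natDegree

/-- The dimension of the covering. -/
def Datum.dim (D : Datum κ) : ℕ := D.n + 2

/-- The composition of all the polynomials is irreducible, its degree is not divisible by `p`, the
degrees of the `h_i` are not divisible by the characteristic of `κ`, and the exponents are not
divisible by `p`. -/
structure IsAdmissible (p : ℕ) (D : Datum κ) : Prop where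
  irreducible : Irreducible (composite (D.n + 1) D.h D.f)
  degree : ¬ p ∣ D.M
  tame : ∀ i, ((D.h i).natDegree : κ) ≠ 0
  exponents : ∀ i, ¬ p ∣ D.b i
  exponent : ¬ p ∣ D.c

/-- The number of fixed points on `𝒳` of the composition of the Frobenius over `L` and `g ^ i`: one
over each point of projective space outside `U`, and `p ^ s` over each point counted by `fixCount`. -/
noncomputable def fixedPoints (p s : ℕ) (z : κ) (D : Datum κ) (E L : Type) [Field E] [Field L]
    [Fintype L] [Algebra κ L] (i : ℕ) : E :=
  ((∑ k ∈ Finset.range (D.dim + 1), (Fintype.card L : E) ^ k) -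
    (openCount L D.h D.f D.b D.c : E)) + (p : E) ^ s * (fixCount L D.h D.f D.b D.c (p ^ s) z i : E)

end defs

section cohomology

variable {E : Type} [Field E]

/-- A space with an endomorphism: the cohomology with compact supports, in one degree, of a variety
`Z`, with the Frobenius. -/
structure Space (E : Type) [Field E] : Type 1 where
  V : Type
  [group : AddCommGroup V]
  [module : Module E V]
  [finite : FiniteDimensional E V]
  Ψ : Module.End E V

attribute [instance] Space.group Space.module Space.finite

/-- A space `W` with two endomorphisms: the part of the middle cohomology of a covering `𝒳` of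
projective space on which the group of the covering acts by nontrivial characters, the Frobenius
and a generator of the group. -/
structure Middle (E : Type) [Field E] : Type 1 where
  W : Type
  [group : AddCommGroup W]
  [module : Module E W]
  [finite : FiniteDimensional E W]
  Φ : Module.End E W
  g : Module.End E W

attribute [instance] Middle.group Middle.module Middle.finite

/-- `C` belongs to the complete covering `𝒳` of the projective space of dimension `N = n + 2`: trace
formula for the compositions of Frobenius and powers of `g`, and the dimensions of the eigenspaces of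
`g`, the Euler characteristic of `U` up to the sign. The cohomology of `𝒳` is the sum of `W` and
of the cohomology of projective space. -/
structure IsCohomology {κ : Type} [Field κ] (p s : ℕ) (z : κ) (D : Datum κ) (C : Middle E) :
    Prop where
  commute : Commute C.Φ C.g
  order : C.g ^ p ^ s = 1
  invariants : ∀ w, C.g w = w → w = 0
  lefschetz : ∀ (L : Type) [Field L] [Fintype L] [Algebra κ L] (i : ℕ),
    (∑ k ∈ Finset.range (D.dim + 1), (Fintype.card L : E) ^ k) +
        (-1) ^ D.dim * LinearMap.trace E C.W (C.Φ ^ Module.finrank κ L * C.g ^ i) =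
      fixedPoints p s z D E L i
  dimension : ∀ ω : E, ω ≠ 1 → ω ^ p ^ s = 1 → Module.finrank E (C.g.eigenspace ω) + D.K = D.M

/-- Every eigenvalue is an algebraic integer, which is mapped to a root of unity of order dividing `e`
by all homomorphisms from the ring of algebraic integers to fields of characteristic `p`. -/
def HasOrder (p e : ℕ) (Z : Space E) : Prop :=
  ∀ (β : E) (w : Z.V), w ≠ 0 → Z.Ψ w = β • w → ∃ x : (integralClosure ℤ E).toSubring,
    (x : E) = β ∧ ∀ (k : Type) [Field k] [CharP k p]
      (θ : (integralClosure ℤ E).toSubring →+* k), θ x ^ e = 1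

/-- The whole cohomology of `𝒳`: the sum of the cohomology of projective space of dimension `N`, where
the `k`-th basis vector is the `k`-th power of the class of a hyperplane, and of `W`. -/
def Total (N : ℕ) (C : Middle E) : Type := (Fin (N + 1) → E) × C.W

noncomputable instance (N : ℕ) (C : Middle E) : AddCommGroup (Total N C) :=
  inferInstanceAs (AddCommGroup ((Fin (N + 1) → E) × C.W))

noncomputable instance (N : ℕ) (C : Middle E) : Module E (Total N C) :=
  inferInstanceAs (Module E ((Fin (N + 1) → E) × C.W))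

/-- The Frobenius on the whole cohomology of `𝒳`. -/
noncomputable def totalFrobenius (q N : ℕ) (C : Middle E) : Module.End E (Total N C) :=
  LinearMap.prodMap (LinearMap.pi fun k : Fin (N + 1) => ((q : E) ^ (k : ℕ)) • LinearMap.proj k) C.Φ

/-- The whole cohomology of the product of the `𝒳_i` (Künneth formula). -/
def Covers {ι : Type} (N : ι → ℕ) (C : ι → Middle E) : Type := ⨂[E] i, Total (N i) (C i)

noncomputable instance {ι : Type} (N : ι → ℕ) (C : ι → Middle E) : AddCommGroup (Covers N C) :=
  inferInstanceAs (AddCommGroup (⨂[E] i, Total (N i) (C i)))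

noncomputable instance {ι : Type} (N : ι → ℕ) (C : ι → Middle E) : Module E (Covers N C) :=
  inferInstanceAs (Module E (⨂[E] i, Total (N i) (C i)))

/-- The Frobenius on the cohomology of the product of the `𝒳_i`. -/
noncomputable def coversFrobenius (q : ℕ) {ι : Type} (N : ι → ℕ) (C : ι → Middle E) :
    Module.End E (Covers N C) :=
  PiTensorProduct.map fun i => totalFrobenius q (N i) (C i)

/-- The class of the product of linear sections of the codimensions `k_i` of the `𝒳_i`. -/
noncomputable def linearSection {ι : Type} (N : ι → ℕ) (C : ι → Middle E)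
    (k : ∀ i, Fin (N i + 1)) : Covers N C :=
  PiTensorProduct.tprod E (s := fun i => Total (N i) (C i)) fun i =>
    ((Pi.single (k i) 1, 0) : (Fin (N i + 1) → E) × (C i).W)

/-- The tensor product of the cohomology with compact supports of `Z`, in one degree, with the
whole cohomology of the product of the `𝒳_i`. -/
def Times (Z : Space E) {ι : Type} (N : ι → ℕ) (C : ι → Middle E) : Type := Z.V ⊗[E] Covers N C

noncomputable instance (Z : Space E) {ι : Type} (N : ι → ℕ) (C : ι → Middle E) :
    AddCommGroup (Times Z N C) :=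
  inferInstanceAs (AddCommGroup (Z.V ⊗[E] Covers N C))

noncomputable instance (Z : Space E) {ι : Type} (N : ι → ℕ) (C : ι → Middle E) :
    Module E (Times Z N C) :=
  inferInstanceAs (Module E (Z.V ⊗[E] Covers N C))

/-- The Frobenius. -/
noncomputable def timesFrobenius (q : ℕ) (Z : Space E) {ι : Type} (N : ι → ℕ)
    (C : ι → Middle E) : Module.End E (Times Z N C) :=
  TensorProduct.map Z.Ψ (coversFrobenius q N C)

/-- The product of a class of `Z` with a linear section. -/
noncomputable def timesSection {Z : Space E} {ι : Type} (N : ι → ℕ) (C : ι → Middle E) (z : Z.V)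
    (k : ∀ i, Fin (N i + 1)) : Times Z N C :=
  (z ⊗ₜ[E] linearSection N C k : Z.V ⊗[E] Covers N C)

/-- `x` is in degree `d` in the cohomology of `𝒳`, in one of the two summands: a multiple of the `k`-th
power of the class of a hyperplane, `d = 2 k`, or an element of `W`, `d = N`. -/
def IsHomogeneous (N : ℕ) (C : Middle E) (x : Total N C) (d : ℕ) : Prop :=
  (∃ (k : Fin (N + 1)) (a : E), x = ((Pi.single k a, 0) : (Fin (N + 1) → E) × C.W) ∧
    d = 2 * (k : ℕ)) ∨ (∃ w : C.W, x = ((0, w) : (Fin (N + 1) → E) × C.W) ∧ d = N)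

/-- The part of degree `d` of the cohomology of the product of the `𝒳_i`, spanned by the tensor products of
homogeneous elements with the sum of the degrees `d`. -/
noncomputable def coversPart {ι : Type} [Fintype ι] (N : ι → ℕ) (C : ι → Middle E) (d : ℕ) :
    Submodule E (Covers N C) :=
  Submodule.span E {t | ∃ (x : ∀ i, Total (N i) (C i)) (n : ι → ℕ),
    (∀ i, IsHomogeneous (N i) (C i) (x i) (n i)) ∧ ∑ i, n i = d ∧
      PiTensorProduct.tprod E (s := fun i => Total (N i) (C i)) x = t}

/-- The tensor product of the cohomology of `Z` in one degree with that of the product of the `𝒳_i` in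
degree `d`. -/
noncomputable def timesPart (Z : Space E) {ι : Type} [Fintype ι] (N : ι → ℕ) (C : ι → Middle E) (d : ℕ) :
    Submodule E (Times Z N C) :=
  Submodule.span E {t | ∃ (z : Z.V) (u : Covers N C), u ∈ coversPart N C d ∧
    (z ⊗ₜ[E] u : Z.V ⊗[E] Covers N C) = t}

/-- The space spanned by the products of the linear sections of codimensions `k_i` with `2 ∑ k_i = d`
and the elements of the generalized eigenspace of the `r`-th power of Frobenius of `Z` for the
eigenvalue `q ^ (r (j - ∑ k_i))`. -/
noncomputable def sections (q : ℕ) (Z : Space E) {ι : Type} [Fintype ι] (N : ι → ℕ)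
    (C : ι → Middle E) (r d : ℕ) (j : ℤ) : Submodule E (Times Z N C) :=
  Submodule.span E {t | ∃ (k : ∀ i, Fin (N i + 1)) (z : Z.V), ∑ i, 2 * (k i : ℕ) = d ∧
    z ∈ (Z.Ψ ^ r).maxGenEigenspace ((q : E) ^ ((r : ℤ) * (j - ∑ i, ((k i : ℕ) : ℤ)))) ∧
      timesSection N C z k = t}

/-- `SS_i(Z)` over the extension of degree `r`, where `Z m` is the cohomology with compact supports of
`Z` in degree `m`. -/
def BaseSS (q r : ℕ) (Z : ℕ → Space E) (i : ℕ) : Prop :=
  ∀ x ∈ ((Z (2 * i)).Ψ ^ r).maxGenEigenspace ((q : E) ^ (r * i)),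
    ((Z (2 * i)).Ψ ^ r) x = ((q : E) ^ (r * i)) • x

/-- `SS_j(Z × X)` over the extension of degree `r`: the cohomology with compact supports of `Z × X` in
degree `2 j` is the direct sum over `m + d = 2 j` of the tensor products of the cohomology with compact
supports of `Z` in degree `m` and the cohomology of `X`, the product of the `𝒳_i`, in degree `d`. -/
def ProductSS (q r : ℕ) (Z : ℕ → Space E) {ι : Type} [Fintype ι] (N : ι → ℕ)
    (C : ι → Middle E) (j : ℕ) : Prop :=
  ∀ m d : ℕ, m + d = 2 * j → ∀ x ∈ timesPart (Z m) N C d,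
    x ∈ (timesFrobenius q (Z m) N C ^ r).maxGenEigenspace ((q : E) ^ (r * j)) →
      (timesFrobenius q (Z m) N C ^ r) x = ((q : E) ^ (r * j)) • x

theorem composite_eq {κ : Type} [Field κ] (n : ℕ) : ∀ (h : Fin n → κ[X]) (f : κ[X]),
    composite n h f = Pool.Agent.TH943.IP.cmp n h f := by
  induction n with
  | zero => intro h f; rfl
  | succ n ih =>
    intro h f
    show (composite n (fun i => h i.succ) f).comp (h 0) = _
    rw [ih]
    rfl

/-- the products of eigenvectors -/
noncomputable def genT {ι : Type} (N : ι → ℕ) (C : ι → Middle E)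
    (a : ∀ i, TH943.TP.Gen (N i) (C i).Φ) : Covers N C :=
  PiTensorProduct.tprod E (s := fun i => Total (N i) (C i))
    fun i => TH943.TP.gen (N i) (C i).Φ (a i)

theorem genT_val (q : ℕ) {ι : Type} [Fintype ι] (N : ι → ℕ) (C : ι → Middle E)
    (a : ∀ i, TH943.TP.Gen (N i) (C i).Φ) :
    coversFrobenius q N C (genT N C a) =
      (∏ i, TH943.TP.val q (N i) (C i).Φ (a i)) • genT N C a := by
  have h1 : coversFrobenius q N C (genT N C a) =
      PiTensorProduct.tprod E (s := fun i => Total (N i) (C i))
        (fun i => totalFrobenius q (N i) (C i) (TH943.TP.gen (N i) (C i).Φ (a i))) :=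
    PiTensorProduct.map_tprod _ _
  have h2 : (fun i => totalFrobenius q (N i) (C i) (TH943.TP.gen (N i) (C i).Φ (a i))) =
      fun i => (TH943.TP.val q (N i) (C i).Φ (a i) •
        (TH943.TP.gen (N i) (C i).Φ (a i) : Total (N i) (C i))) :=
    funext fun i => TH943.TP.tot_gen q (N i) (C i).Φ (a i)
  rw [h1, h2]
  exact (PiTensorProduct.tprod E (s := fun i => Total (N i) (C i))).map_smul_univ
    (fun i => TH943.TP.val q (N i) (C i).Φ (a i)) (fun i => TH943.TP.gen (N i) (C i).Φ (a i))

/-- degrees of the generators -/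
def dg {N : ℕ} {C : Middle E} (a : TH943.TP.Gen N C.Φ) : ℕ :=
  match a with
  | .inl k => 2 * (k : ℕ)
  | .inr _ => N

theorem mem_gen [IsAlgClosed E] {N : ℕ} {C : Middle E} (h : C.Φ.IsSemisimple) {x : Total N C}
    {n : ℕ} (hx : IsHomogeneous N C x n) :
    x ∈ Submodule.span E {y : Total N C | ∃ a : TH943.TP.Gen N C.Φ, dg a = n ∧
      TH943.TP.gen N C.Φ a = y} := by
  rcases hx with ⟨k, a, rfl, rfl⟩ | ⟨w, rfl, rfl⟩
  · have h1 : ((Pi.single k a, 0) : (Fin (N + 1) → E) × C.W) =
        a • ((Pi.single k 1, 0) : (Fin (N + 1) → E) × C.W) := by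
      rw [Prod.smul_mk, smul_zero, ← Pi.single_smul, smul_eq_mul, mul_one]
    have h2 : ((Pi.single k 1, 0) : (Fin (N + 1) → E) × C.W) ∈
        Submodule.span E {y : (Fin (N + 1) → E) × C.W | ∃ a : TH943.TP.Gen N C.Φ,
          dg a = 2 * (k : ℕ) ∧ TH943.TP.gen N C.Φ a = y} :=
      Submodule.subset_span ⟨Sum.inl k, rfl, rfl⟩
    have h3 := Submodule.smul_mem _ a h2
    rw [← h1] at h3
    exact h3
  · refine Submodule.span_mono ?_ (TH943.TP.mem_span_gen _ C.Φ h w)
    rintro _ ⟨x, rfl⟩
    exact ⟨Sum.inr x, rfl, rfl⟩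

theorem timesPart_eq [IsAlgClosed E] (Z : Space E) {ι : Type} [Fintype ι] (N : ι → ℕ)
    (C : ι → Middle E) (h : ∀ i, (C i).Φ.IsSemisimple) (d : ℕ) :
    timesPart Z N C d = Submodule.span E {t : Times Z N C |
      ∃ (z : Z.V) (a : ∀ i, TH943.TP.Gen (N i) (C i).Φ), ∑ i, dg (a i) = d ∧
        (z ⊗ₜ[E] genT N C a : Z.V ⊗[E] Covers N C) = t} := by
  refine le_antisymm (Submodule.span_le.2 ?_) (Submodule.span_mono ?_)
  · rintro _ ⟨z, u, hu, rfl⟩
    have h1 : coversPart N C d ≤ Submodule.span E {t : Covers N C |
        ∃ a : ∀ i, TH943.TP.Gen (N i) (C i).Φ, ∑ i, dg (a i) = d ∧ genT N C a = t} := by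
      refine Submodule.span_le.2 ?_
      rintro _ ⟨x, n, hx, hn, rfl⟩
      have h2 := TH943.TP.tprod_mem_span (E := E) (H := fun i => Total (N i) (C i))
        (fun i => {y : Total (N i) (C i) | ∃ a : TH943.TP.Gen (N i) (C i).Φ, dg a = n i ∧
          TH943.TP.gen (N i) (C i).Φ a = y}) x (fun i => mem_gen (h i) (hx i))
      refine Submodule.span_mono ?_ h2
      rintro _ ⟨y, hy, rfl⟩
      choose a ha1 ha2 using hy
      refine ⟨a, ?_, ?_⟩
      · rw [← hn]
        exact Finset.sum_congr rfl fun i _ => ha1 i
      · show PiTensorProduct.tprod E (s := fun i => Total (N i) (C i)) _ =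
          PiTensorProduct.tprod E (s := fun i => Total (N i) (C i)) _
        congr 1
        exact funext ha2
    have h2 := Submodule.mem_map_of_mem (f := TensorProduct.mk E Z.V (Covers N C) z) (h1 hu)
    rw [Submodule.map_span] at h2
    refine Submodule.span_mono ?_ h2
    rintro _ ⟨_, ⟨a, ha, rfl⟩, rfl⟩
    exact ⟨z, a, ha, rfl⟩
  · rintro _ ⟨z, a, ha, rfl⟩
    refine ⟨z, genT N C a, Submodule.subset_span ⟨_, fun i => dg (a i), fun i => ?_, ha, rfl⟩, rfl⟩
    show IsHomogeneous (N i) (C i) (TH943.TP.gen (N i) (C i).Φ (a i)) (dg (a i))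
    generalize a i = b
    rcases b with k | x
    · exact Or.inl ⟨k, 1, rfl, rfl⟩
    · exact Or.inr ⟨x.1.2, rfl, rfl⟩

/-- a linear form which is one at a linear section -/
noncomputable def evT {ι : Type} [Fintype ι] (N : ι → ℕ) (C : ι → Middle E)
    (k : ∀ i, Fin (N i + 1)) : Covers N C →ₗ[E] E := TH943.TP.ev N (fun i => (C i).W) k

theorem evT_one {ι : Type} [Fintype ι] (N : ι → ℕ) (C : ι → Middle E)
    (k : ∀ i, Fin (N i + 1)) : evT N C k (linearSection N C k) = 1 :=
  TH943.TP.ev_one N (fun i => (C i).W) k

theorem frob_section (q : ℕ) (Z : Space E) {ι : Type} [Fintype ι] (N : ι → ℕ)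
    (C : ι → Middle E) (r : ℕ) (z : Z.V) (k : ∀ i, Fin (N i + 1)) :
    (timesFrobenius q Z N C ^ r) (timesSection N C z k) =
      (q : E) ^ (r * ∑ i, (k i : ℕ)) • timesSection N C ((Z.Ψ ^ r) z) k :=
  TH943.TP.times_lin N (fun i => (C i).Φ) (coversFrobenius q N C) (genT N C) (genT_val q N C)
    Z.Ψ r z k

/-- semisimplicity, from the description of the generalized eigenspaces -/
theorem ss_iff {q : ℕ} (hq0 : (q : E) ≠ 0) (Z : ℕ → Space E) {ι : Type} [Fintype ι]
    (N : ι → ℕ) (C : ι → Middle E) (r : ℕ)
    (h : ∀ (m d : ℕ) (j : ℤ), (timesFrobenius q (Z m) N C ^ r).maxGenEigenspace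
      ((q : E) ^ ((r : ℤ) * j)) ⊓ timesPart (Z m) N C d = sections q (Z m) N C r d j) (j : ℕ) :
    ProductSS q r Z N C j ↔ ∀ k : ∀ i, Fin (N i + 1), ∑ i, (k i : ℕ) ≤ j →
      BaseSS q r Z (j - ∑ i, (k i : ℕ)) := by
  have hz : ∀ n : ℕ, (q : E) ^ ((r : ℤ) * (n : ℤ)) = (q : E) ^ (r * n) := by
    intro n
    rw [← Nat.cast_mul, zpow_natCast]
  have hsub : ∀ k : ∀ i, Fin (N i + 1), ∑ i, (k i : ℕ) ≤ j →
      (j : ℤ) - ∑ i, ((k i : ℕ) : ℤ) = ((j - ∑ i, (k i : ℕ) : ℕ) : ℤ) := by
    intro k hk
    push_cast [Nat.cast_sub hk]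
    ring
  have hmul : ∀ c : ℕ, c ≤ j → (q : E) ^ (r * j) = (q : E) ^ (r * c) * (q : E) ^ (r * (j - c)) := by
    intro c hc
    rw [← pow_add, ← mul_add, Nat.add_sub_cancel' hc]
  constructor
  · intro hP k hk z hzz
    have h1 : timesSection N C z k ∈
        sections q (Z (2 * (j - ∑ i, (k i : ℕ)))) N C r (∑ i, 2 * (k i : ℕ)) j := by
      refine Submodule.subset_span ⟨k, z, rfl, ?_, rfl⟩
      rw [hsub k hk, hz]
      exact hzz
    rw [← h] at h1
    have h2 := hP (2 * (j - ∑ i, (k i : ℕ))) (∑ i, 2 * (k i : ℕ))
      (by rw [← Finset.mul_sum]; omega) _ h1.2 (by rw [← hz]; exact h1.1)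
    rw [frob_section, hmul _ hk, mul_smul] at h2
    have h3 := smul_right_injective _ (pow_ne_zero (r * ∑ i, (k i : ℕ)) hq0) h2
    exact TH943.TP.tmul_cancel (evT N C k) (evT_one N C k)
      (v := ((q : E) ^ (r * (j - ∑ i, (k i : ℕ)))) • z) h3
  · intro hB m d hmd x hx1 hx2
    have h1 : x ∈ sections q (Z m) N C r d j := by
      rw [← h, hz]
      exact ⟨hx2, hx1⟩
    have h2 : sections q (Z m) N C r d j ≤
        (timesFrobenius q (Z m) N C ^ r).eigenspace ((q : E) ^ (r * j)) := by
      refine Submodule.span_le.2 ?_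
      rintro _ ⟨k, z, hk, hzz, rfl⟩
      rw [← Finset.mul_sum] at hk
      have hkj : ∑ i, (k i : ℕ) ≤ j := by omega
      obtain rfl : m = 2 * (j - ∑ i, (k i : ℕ)) := by omega
      rw [hsub k hkj, hz] at hzz
      refine Module.End.mem_eigenspace_iff.2 ?_
      rw [frob_section, hB k hkj z hzz, hmul _ hkj, mul_smul]
      rfl
    exact Module.End.mem_eigenspace_iff.1 (h2 h1)

end cohomology

/-- **Semisimplicity at one for the products of any variety with explicit coverings.**

Let `p` be a prime and `κ` a finite field with `q` elements which contains a primitive root of unity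
`z` of order `p ^ s`, `s ≥ 1`. For every `i` in a finite set let `f_i` and `h_(i,1), ..., h_(i,n+1)`,
`n = n_i ≥ 0`, be polynomials over `κ` such that `f_i(h_(i,n+1)(... h_(i,1)(x)))` is irreducible of
degree `M_i` prime to `p`, the degrees of the `h_(i,j)` are prime to the characteristic, and `c_i`,
`b_(i,j)` positive integers prime to `p`. Let `N_i = n_i + 2 ≥ 2`, and let `U_i` be the open set of the
projective space of dimension `N_i` given in the affine space with the coordinates
`x_0, ..., x_(n+1)` by `G_i ≠ 0`, `G_i = f_i(x_(n+1)) ^ (c_i) ∏ (x_j - h_(i,j)(x_(j-1))) ^ (b_(i,j))`;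
`F_i` a form of degree divisible by `p ^ s` with `F_i = G_i` on the affine space and `F_i = 0` on the
hyperplane at infinity; and `𝒳_i` the complete variety `v ^ (p ^ s) = F_i` of dimension `N_i`, in a
weighted projective space, a covering of projective space with one point over each point outside
`U_i`. For a prime `ℓ` prime to `q` and `E` an algebraic closure of the field of `ℓ`-adic numbers, the
cohomology of `𝒳_i` is the sum of that of the projective space and of the `H^j_c(U_i, L_χ)`, `χ` the
nontrivial characters of order dividing `p ^ s`, and these are zero for `j ≠ N_i` (as `U_i` is affine and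
smooth, and by integration over `x_0, x_1, ...`: no coinvariants for the inertia at infinity). So
`IsCohomology` holds. Assume that for `i ≠ j` the degree of `h_(i,1)` is prime to `M_j`.

Let now `Z` be ANY variety over `κ`, smooth or singular, proper or not, and `Z m` its cohomology with
compact supports in degree `m`. The eigenvalues of Frobenius are algebraic integers dividing a
power of `q` (Deligne), so that their reductions in characteristic `p` are roots of unity of orders
prime to `p`; let `e` be a common multiple of these orders (`HasOrder`; there is such an `e`). Assume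
that the degrees of the `h_(i,1)` are prime to `e`. Let `r` be prime to the degrees of the `h_(i,1)`,
`κ_r` the extension of `κ` of degree `r`, and `X = ∏ 𝒳_i`. The whole cohomology of `X` is the tensor
product of the whole cohomologies of the `𝒳_i` (Künneth formula), `coversPart` its part of degree `d`.

Theorem. (1) For all `m`, `d` and all integers `j` the generalized eigenspace of the Frobenius over `κ_r`
for the eigenvalue `q ^ (r j)` in the tensor product of `H_c^m(Z)` and `H^d(X)` is spanned by the products
of linear sections of codimensions `k_i` of the `𝒳_i`, `2 ∑ k_i = d`, and the elements of the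
generalized eigenspace for `q ^ (r (j - ∑ k_i))` in `H_c^m(Z)`.
(2) Over `κ_r`, `SS_j(Z × X)` holds if and only if `SS_i(Z)` holds for all `i = j - ∑ k_i ≥ 0`, `0 ≤ k_i ≤ N_i`,
so for all `i ≥ 0` with `j - ∑ N_i ≤ i ≤ j`. Here `SS_i(Z)` is stated, as `H_(2 i)` is dual to `H_c^(2 i)`,
as the semisimplicity of the eigenvalue `q ^ (r i)` on `H_c^(2 i)(Z)`; and `H_c^(2 j)(Z × X)` is the sum
of the tensor products of `H_c^m(Z)` and `H^d(X)` with `m + d = 2 j`.
(3) `SS_j(Z × X)` holds for all `j` if and only if `SS_i(Z)` holds for all `i`.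

So `SS_j(Z × X)` holds for all `j` and over all `κ_r` as above when `Z` is a point or an abelian variety
and the degrees of the `h_(i,1)` are prime to `e`. The Betti numbers of the `𝒳_i` in degree `N_i` are not
bounded. -/
theorem result (p s : ℕ) (hp : p.Prime) (hs : 1 ≤ s) (κ : Type) [Field κ] [Fintype κ] (z : κ)
    (hz : IsPrimitiveRoot z (p ^ s)) (ι : Type) [Fintype ι] (D : ι → Datum κ)
    (hadm : ∀ i, IsAdmissible p (D i)) (hcop : ∀ i j, i ≠ j → Nat.Coprime (D i).m (D j).M)
    (E : Type) [Field E] [CharZero E] [IsAlgClosed E] (C : ι → Middle E)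
    (hC : ∀ i, IsCohomology p s z (D i) (C i)) (Z : ℕ → Space E) (e : ℕ)
    (hZ : ∀ m, HasOrder p e (Z m)) (he : ∀ i, Nat.Coprime (D i).m e) (r : ℕ)
    (hr : ∀ i, Nat.Coprime (D i).m r) :
    (∀ (m d : ℕ) (j : ℤ),
      (timesFrobenius (Fintype.card κ) (Z m) (fun i => (D i).dim) C ^ r).maxGenEigenspace
          ((Fintype.card κ : E) ^ ((r : ℤ) * j)) ⊓ timesPart (Z m) (fun i => (D i).dim) C d =
        sections (Fintype.card κ) (Z m) (fun i => (D i).dim) C r d j) ∧
    (∀ j : ℕ, ProductSS (Fintype.card κ) r Z (fun i => (D i).dim) C j ↔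
      ∀ k : ∀ i, Fin ((D i).dim + 1), ∑ i, (k i : ℕ) ≤ j →
        BaseSS (Fintype.card κ) r Z (j - ∑ i, (k i : ℕ))) ∧
    ((∀ j : ℕ, ProductSS (Fintype.card κ) r Z (fun i => (D i).dim) C j) ↔
      ∀ i : ℕ, BaseSS (Fintype.card κ) r Z i) := by
  classical
  have hmain : ∀ i, (C i).Φ.IsSemisimple ∧
      ∀ (k : Type) [Field k] [CharP k p] (θ : (integralClosure ℤ E).toSubring →+* k) (α : E)
        (w : (C i).W), w ≠ 0 → (C i).Φ w = α • w → ∃ x : (integralClosure ℤ E).toSubring,
          (x : E) = α ∧ θ x ^ (D i).M = 1 ∧ θ x ^ (D i).K ≠ 1 := by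
    intro i
    have hirr := (hadm i).irreducible
    have hdeg := (hadm i).degree
    have hdim := (hC i).dimension
    unfold Datum.M at hdeg hdim ⊢
    unfold Datum.K at hdim ⊢
    rw [composite_eq] at hirr hdeg
    simp only [composite_eq] at hdim ⊢
    refine TH943.TP.eig_main hp hs κ hz (D i).h (D i).f (b := (D i).b) (c := (D i).c)
      ?_ ?_ hirr hdeg (C i).Φ (C i).g (hC i).commute (hC i).order (hC i).invariants ?_ hdim
    · intro l h0
      exact (hadm i).exponents l (by rw [h0]; exact dvd_zero p)
    · intro h0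
      exact (hadm i).exponent (by rw [h0]; exact dvd_zero p)
    · intro L _ _ _ l
      have h1 := (hC i).lefschetz L l
      have h2 : (-1) ^ ((D i).n + 2) *
          LinearMap.trace E (C i).W ((C i).Φ ^ Module.finrank κ L * (C i).g ^ l) =
          (p : E) ^ s * (fixCount L (D i).h (D i).f (D i).b (D i).c (p ^ s) z l : E) -
            (openCount L (D i).h (D i).f (D i).b (D i).c : E) := by
        unfold fixedPoints Datum.dim at h1
        linear_combination h1
      exact h2
  have hM : ∀ i, (D i).M = (D i).K * (D i).m := by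
    intro i
    unfold Datum.M Datum.K Datum.m
    rw [composite_eq, composite_eq, Pool.Agent.TH943.IP.cmp_succ, natDegree_comp]
  have hcop' : ∀ i j, i ≠ j → Nat.Coprime (D i).m ((D j).K * (D j).m) := by
    intro i j hij
    have h2 := hcop i j hij
    rw [hM j] at h2
    exact h2
  have heig : ∀ i, ∀ (k : Type) [Field k] [CharP k p]
      (θ : (integralClosure ℤ E).toSubring →+* k) (α : E) (w : (C i).W), w ≠ 0 →
        (C i).Φ w = α • w → ∃ x : (integralClosure ℤ E).toSubring,
          (x : E) = α ∧ θ x ^ ((D i).K * (D i).m) = 1 ∧ θ x ^ (D i).K ≠ 1 := by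
    intro i k _ _ θ α w hw hα
    obtain ⟨x, hx1, hx2, hx3⟩ := (hmain i).2 k θ α w hw hα
    refine ⟨x, hx1, ?_, hx3⟩
    rw [← hM i]
    exact hx2
  have hΨ : ∀ m, ∀ (k : Type) [Field k] [CharP k p] (θ : (integralClosure ℤ E).toSubring →+* k)
      (β : E) (w : (Z m).V), w ≠ 0 → (Z m).Ψ w = β • w →
        ∃ x : (integralClosure ℤ E).toSubring, (x : E) = β ∧ θ x ^ e = 1 := by
    intro m k _ _ θ β w hw hβ
    obtain ⟨x, hx1, hx2⟩ := hZ m β w hw hβ
    exact ⟨x, hx1, hx2 k θ⟩
  have hq1 : 1 < Fintype.card κ := Fintype.one_lt_card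
  have hq : ∀ (k : Type) [Field k] [CharP k p], ((Fintype.card κ : ℕ) : k) = 1 :=
    fun k _ _ => Pool.Agent.W528.HS.card_eq_one hp hs hz k
  have hq0 : (Fintype.card κ : E) ≠ 0 := by
    have : Fintype.card κ ≠ 0 := by omega
    exact_mod_cast this
  have h1 : ∀ (m d : ℕ) (j : ℤ),
      (timesFrobenius (Fintype.card κ) (Z m) (fun i => (D i).dim) C ^ r).maxGenEigenspace
          ((Fintype.card κ : E) ^ ((r : ℤ) * j)) ⊓ timesPart (Z m) (fun i => (D i).dim) C d =
        sections (Fintype.card κ) (Z m) (fun i => (D i).dim) C r d j := by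
    intro m d j
    rw [timesPart_eq (Z m) _ C (fun i => (hmain i).1) d]
    exact TH943.TP.times_main hp hq1 hq (fun i => (D i).dim) (fun i => (D i).K)
      (fun i => (D i).m) hcop' (E := E) (W := fun i => (C i).W) (fun i => (C i).Φ) heig
      (coversFrobenius (Fintype.card κ) (fun i => (D i).dim) C)
      (genT (fun i => (D i).dim) C) (genT_val _ _ C)
      (fun a => ∑ i, dg (a i) = d) (Z m).Ψ (hΨ m) he hr j
  have h2 := ss_iff hq0 Z (fun i => (D i).dim) C r h1
  refine ⟨h1, h2, fun h i => ?_, fun h j => (h2 j).2 fun k _ => h _⟩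
  have h3 := (h2 i).1 (h i) (fun _ => 0) (by simp)
  simpa using h3

end Pool.Agent.Results.MP_16ef92_ag.TimesCoverings
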